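import Pool.Agent.EWG.StmtsC

/-!
# Row HIE of squad EWG (MP_b66c3b_nt)

The moduli near `x^(1/2)`.
-/

set_option autoImplicit false

namespace Pool.Agent.EWG.H53

open Finset

lemma th_nonneg (x l : ℕ) : 0 ≤ Th x l := by
  unfold Th
  apply Finset.sum_nonneg
  intro p _
  exact Real.log_natCast_nonneg p

lemma th_le (x l : ℕ) : Th x l ≤ (x : ℝ) * x := by
  unfold Th
  calc ∑ p ∈ (Finset.Icc 1 x).filter (fun p => p.Prime ∧ p % l = 1 % l), Real.log p
      ≤ ∑ p ∈ (Finset.Icc 1 x).filter (fun p => p.Prime ∧ p % l = 1 % l), (x : ℝ) := by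
        apply Finset.sum_le_sum
        intro p hp
        rw [mem_filter, mem_Icc] at hp
        have h1 : (0 : ℝ) < p := by exact_mod_cast hp.1.1
        have h2 : (p : ℝ) ≤ x := by exact_mod_cast hp.1.2
        have h3 := Real.log_le_sub_one_of_pos h1
        linarith
    _ = (((Finset.Icc 1 x).filter (fun p => p.Prime ∧ p % l = 1 % l)).card : ℝ) * x := by
        rw [Finset.sum_const, nsmul_eq_mul]
    _ ≤ (x : ℝ) * x := by
        apply mul_le_mul_of_nonneg_right _ (Nat.cast_nonneg _)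
        have h1 := Finset.card_filter_le (Finset.Icc 1 x) (fun p => p.Prime ∧ p % l = 1 % l)
        rw [Nat.card_Icc] at h1
        have h2 : ((Finset.Icc 1 x).filter (fun p => p.Prime ∧ p % l = 1 % l)).card ≤ x := by
          omega
        exact_mod_cast h2

/-- Row HIE -/
theorem hie (h1 : Bt2Stmt) (h2 : MrgStmt) : HieStmt := by
  obtain ⟨C1, hC1, hbt⟩ := h1
  obtain ⟨C2, hC2, hmr⟩ := h2
  refine ⟨2 * (C1 * C2) + 2 ^ 20, by positivity, ?_⟩
  intro ε hε hε2 x hx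
  have hx0 : (0 : ℝ) < x := by exact_mod_cast hx
  have hx1 : (1 : ℝ) ≤ x := by exact_mod_cast hx
  have hlog : 0 ≤ Real.log x := Real.log_nonneg hx1
  have hA : 0 ≤ ε * Real.log x := mul_nonneg hε.le hlog
  rcases Nat.lt_or_ge x 32 with hxs | hxl
  · -- small x
    have hx32 : (x : ℝ) ≤ 32 := by
      have : x ≤ 32 := by omega
      exact_mod_cast this
    have hb : ∀ l ∈ (pr (Icc 1 x)).filter
        (fun l : ℕ => (x : ℝ) ^ (1 / 2 - ε) < l ∧ l ^ 2 ≤ 2 * x),
        Real.log l * Th x l ≤ 32768 := by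
      intro l hl
      rw [mem_filter, mem_pr, mem_Icc] at hl
      have h3 : (0 : ℝ) < l := by exact_mod_cast hl.1.1.1
      have h4 : (l : ℝ) ≤ x := by exact_mod_cast hl.1.1.2
      have h5 := Real.log_le_sub_one_of_pos h3
      have h6 : Real.log l ≤ 32 := by linarith
      have h7 : Th x l ≤ 1024 := by
        have := th_le x l
        nlinarith
      have h8 := th_nonneg x l
      calc Real.log l * Th x l ≤ 32 * 1024 := mul_le_mul h6 h7 h8 (by norm_num)
        _ = 32768 := by norm_num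
    have hc : (((pr (Icc 1 x)).filter
        (fun l : ℕ => (x : ℝ) ^ (1 / 2 - ε) < l ∧ l ^ 2 ≤ 2 * x)).card : ℝ) ≤ 32 := by
      have h3 : ((pr (Icc 1 x)).filter
        (fun l : ℕ => (x : ℝ) ^ (1 / 2 - ε) < l ∧ l ^ 2 ≤ 2 * x)).card ≤ (Icc 1 x).card := by
        apply Finset.card_le_card
        intro l hl
        rw [mem_filter, mem_pr] at hl
        exact hl.1.1
      rw [Nat.card_Icc] at h3
      have h4 : ((pr (Icc 1 x)).filter
        (fun l : ℕ => (x : ℝ) ^ (1 / 2 - ε) < l ∧ l ^ 2 ≤ 2 * x)).card ≤ 32 := by omega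
      exact_mod_cast h4
    calc ∑ l ∈ (pr (Icc 1 x)).filter (fun l : ℕ => (x : ℝ) ^ (1 / 2 - ε) < l ∧ l ^ 2 ≤ 2 * x),
          Real.log l * Th x l
        ≤ ((pr (Icc 1 x)).filter
          (fun l : ℕ => (x : ℝ) ^ (1 / 2 - ε) < l ∧ l ^ 2 ≤ 2 * x)).card • (32768 : ℝ) :=
          Finset.sum_le_card_nsmul _ _ _ hb
      _ ≤ 32 * 32768 := by
          rw [nsmul_eq_mul]
          exact mul_le_mul_of_nonneg_right hc (by norm_num)
      _ ≤ (2 * (C1 * C2) + 2 ^ 20) * x * (ε * Real.log x + 1) := by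
          have h3 : (0 : ℝ) ≤ 2 * (C1 * C2) := by positivity
          have h4 : (2 : ℝ) ^ 20 ≤ (2 * (C1 * C2) + 2 ^ 20) * x := by
            nlinarith
          have h5 : (2 : ℝ) ^ 20 * 1 ≤ (2 * (C1 * C2) + 2 ^ 20) * x * (ε * Real.log x + 1) := by
            apply mul_le_mul h4 (by linarith) (by norm_num)
            positivity
          calc (32 : ℝ) * 32768 = (2 : ℝ) ^ 20 * 1 := by norm_num
            _ ≤ _ := h5
  · -- large x
    have hb : ∀ l ∈ (pr (Icc 1 x)).filter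
        (fun l : ℕ => (x : ℝ) ^ (1 / 2 - ε) < l ∧ l ^ 2 ≤ 2 * x),
        Real.log l * Th x l ≤ C1 * x * (Real.log l / ((l : ℝ) - 1)) := by
      intro l hl
      rw [mem_filter, mem_pr, mem_Icc] at hl
      obtain ⟨⟨⟨hl1, hlx⟩, hlp⟩, _, hl2⟩ := hl
      have h3 : l ^ 5 ≤ x ^ 3 := by
        have h4 : (l ^ 5) ^ 2 ≤ (x ^ 3) ^ 2 := by
          calc (l ^ 5) ^ 2 = (l ^ 2) ^ 5 := by ring
            _ ≤ (2 * x) ^ 5 := Nat.pow_le_pow_left hl2 5
            _ = 32 * x ^ 5 := by ring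
            _ ≤ x * x ^ 5 := Nat.mul_le_mul_right _ hxl
            _ = (x ^ 3) ^ 2 := by ring
        exact (Nat.pow_le_pow_iff_left (by norm_num)).1 h4
      have h4 := hbt x l hx hlp.pos h3
      rw [Nat.totient_prime hlp] at h4
      have h5 : ((l - 1 : ℕ) : ℝ) = (l : ℝ) - 1 := by
        rw [Nat.cast_sub hlp.one_le, Nat.cast_one]
      rw [h5] at h4
      have h6 : 0 ≤ Real.log (l : ℝ) := Real.log_natCast_nonneg l
      calc Real.log l * Th x l ≤ Real.log l * (C1 * x / ((l : ℝ) - 1)) :=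
            mul_le_mul_of_nonneg_left h4 h6
        _ = C1 * x * (Real.log l / ((l : ℝ) - 1)) := by ring
    have hy : (1 : ℝ) ≤ (x : ℝ) ^ (1 / 2 - ε) := Real.one_le_rpow hx1 (by linarith)
    have hy0 : (0 : ℝ) < (x : ℝ) ^ (1 / 2 - ε) := by linarith
    have hy' : (x : ℝ) ^ (1 / 2 - ε) ≤ (2 * (x : ℝ)) ^ (1 / 2 : ℝ) := by
      calc (x : ℝ) ^ (1 / 2 - ε) ≤ (x : ℝ) ^ (1 / 2 : ℝ) :=
            Real.rpow_le_rpow_of_exponent_le hx1 (by linarith)
        _ ≤ (2 * (x : ℝ)) ^ (1 / 2 : ℝ) :=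
            Real.rpow_le_rpow hx0.le (by linarith) (by norm_num)
    have h3 := hmr ((x : ℝ) ^ (1 / 2 - ε)) ((2 * (x : ℝ)) ^ (1 / 2 : ℝ)) x hy hy'
    have h4 : Real.log ((2 * (x : ℝ)) ^ (1 / 2 : ℝ) / (x : ℝ) ^ (1 / 2 - ε))
        ≤ ε * Real.log x + 1 := by
      rw [Real.log_div (by positivity) hy0.ne', Real.log_rpow (by positivity),
        Real.log_rpow hx0, Real.log_mul (by norm_num) hx0.ne']
      have h5 : Real.log 2 ≤ 1 := by
        have := Real.log_two_lt_d9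
        linarith
      linarith
    have h5 : ∑ l ∈ (pr (Icc 1 x)).filter
        (fun l : ℕ => (x : ℝ) ^ (1 / 2 - ε) < l ∧ l ^ 2 ≤ 2 * x),
          Real.log l / ((l : ℝ) - 1)
        ≤ ∑ l ∈ (pr (Icc 1 x)).filter (fun l : ℕ => (x : ℝ) ^ (1 / 2 - ε) < l ∧
            (l : ℝ) ≤ (2 * (x : ℝ)) ^ (1 / 2 : ℝ)), Real.log l / ((l : ℝ) - 1) := by
      apply Finset.sum_le_sum_of_subset_of_nonneg
      · intro l hl
        rw [mem_filter] at hl ⊢
        refine ⟨hl.1, hl.2.1, ?_⟩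
        have h6 : ((l : ℝ)) ^ 2 ≤ 2 * x := by exact_mod_cast hl.2.2
        rw [← Real.sqrt_eq_rpow]
        exact Real.le_sqrt_of_sq_le h6
      · intro l hl _
        rw [mem_filter, mem_pr, mem_Icc] at hl
        have h6 : 0 ≤ Real.log (l : ℝ) := Real.log_natCast_nonneg l
        have h7 : (1 : ℝ) ≤ l := by exact_mod_cast hl.1.1.1
        exact div_nonneg h6 (by linarith)
    calc ∑ l ∈ (pr (Icc 1 x)).filter (fun l : ℕ => (x : ℝ) ^ (1 / 2 - ε) < l ∧ l ^ 2 ≤ 2 * x),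
          Real.log l * Th x l
        ≤ ∑ l ∈ (pr (Icc 1 x)).filter (fun l : ℕ => (x : ℝ) ^ (1 / 2 - ε) < l ∧ l ^ 2 ≤ 2 * x),
          C1 * x * (Real.log l / ((l : ℝ) - 1)) := Finset.sum_le_sum hb
      _ = C1 * x * ∑ l ∈ (pr (Icc 1 x)).filter
          (fun l : ℕ => (x : ℝ) ^ (1 / 2 - ε) < l ∧ l ^ 2 ≤ 2 * x),
          Real.log l / ((l : ℝ) - 1) := by rw [Finset.mul_sum]
      _ ≤ C1 * x * (C2 * (ε * Real.log x + 1 + 1)) := by
          apply mul_le_mul_of_nonneg_left _ (by positivity)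
          refine h5.trans (h3.trans ?_)
          exact mul_le_mul_of_nonneg_left (by linarith) hC2.le
      _ ≤ C1 * x * (C2 * (2 * (ε * Real.log x + 1))) := by
          apply mul_le_mul_of_nonneg_left _ (by positivity)
          exact mul_le_mul_of_nonneg_left (by linarith) hC2.le
      _ = 2 * (C1 * C2) * x * (ε * Real.log x + 1) := by ring
      _ ≤ (2 * (C1 * C2) + 2 ^ 20) * x * (ε * Real.log x + 1) := by
          apply mul_le_mul_of_nonneg_right _ (by linarith)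
          apply mul_le_mul_of_nonneg_right _ hx0.le
          norm_num

end Pool.Agent.EWG.H53
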