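import Pool.Agent.EWG.StmtsB

/-!
# Row SEP of squad EWG (MP_b66c3b_nt)

Separation of the condition `c <= t` by additive characters modulo `M`.
-/

set_option autoImplicit false

namespace Pool.Agent.EWG.H53

open Finset Pool.Agent.PrimeFourier
open scoped BigOperators

/-- orthogonality of the additive characters modulo `M` -/
lemma orth {M : ℕ} (hM : 0 < M) (a : ℤ) (ha : ¬ (M : ℤ) ∣ a) :
    ∑ h ∈ range M, e ((a : ℝ) / M * h) = 0 := by
  have hM' : (M : ℝ) ≠ 0 := by
    have : (0 : ℝ) < M := by exact_mod_cast hM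
    exact this.ne'
  have h1 := sum_e_geom ((a : ℝ) / M) 0 M (Nat.zero_le _)
  rw [← Finset.range_eq_Ico] at h1
  have h2 : e ((a : ℝ) / M * ((0 : ℕ) : ℝ)) - e ((a : ℝ) / M * M) = 0 := by
    have h3 : (a : ℝ) / M * M = (a : ℝ) := by field_simp
    have h4 : (a : ℝ) / M * ((0 : ℕ) : ℝ) = 0 := by simp
    rw [h3, h4, e_zero, e_int, sub_self]
  rw [h2] at h1
  rcases mul_eq_zero.1 h1 with h5 | h5
  · exfalso
    have h6 := four_mul_dist1_le ((a : ℝ) / M)
    rw [h5, norm_zero] at h6
    have h7 := dist1_div_ge hM ha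
    have h8 : (0 : ℝ) < 1 / (M : ℝ) := by
      have : (0 : ℝ) < M := by exact_mod_cast hM
      positivity
    linarith
  · exact h5

/-- Row SEP -/
theorem sep : SepStmt := by
  intro M hM
  have hM0 : (0 : ℝ) < M := by exact_mod_cast hM
  have hM' : (M : ℝ) ≠ 0 := hM0.ne'
  have hMc : (M : ℂ) ≠ 0 := by
    have : M ≠ 0 := hM.ne'
    exact_mod_cast this
  refine ⟨fun t h => (1 / (M : ℂ)) * ∑ j ∈ range (min (t + 1) M), e (-((h : ℝ) / M) * j),
    fun h => (1 / (M : ℝ)) * bd M (dist1 ((h : ℝ) / M)), ?_, ?_, ?_, ?_⟩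
  · intro h
    have := bd_nonneg (X := (M : ℝ)) (y := dist1 ((h : ℝ) / M)) hM0.le (dist1_nonneg _)
    positivity
  · intro t h
    show ‖(1 / (M : ℂ)) * ∑ j ∈ range (min (t + 1) M), e (-((h : ℝ) / M) * j)‖
      ≤ (1 / (M : ℝ)) * bd M (dist1 ((h : ℝ) / M))
    rw [norm_mul]
    have h1 : ‖(1 / (M : ℂ))‖ = 1 / (M : ℝ) := by
      rw [norm_div, norm_one]
      congr 1
      exact Complex.norm_natCast M
    rw [h1]
    have h2 := norm_sum_e_le (-((h : ℝ) / M)) 0 (min (t + 1) M) (X := (M : ℝ)) (by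
      have : min (t + 1) M - 0 ≤ M := by omega
      exact_mod_cast this)
    rw [dist1_neg, ← Finset.range_eq_Ico] at h2
    exact mul_le_mul_of_nonneg_left h2 (by positivity)
  · show ∑ h ∈ range M, (1 / (M : ℝ)) * bd M (dist1 ((h : ℝ) / M)) ≤ 8 + 4 * Real.log M
    rw [← Finset.mul_sum]
    have h1 := sum_bd_separated (range M) (fun h : ℕ => (h : ℝ) / M) hM (by
      intro i hi j hj hij
      rw [mem_range] at hi hj
      have h2 : ¬ (M : ℤ) ∣ ((i : ℤ) - j) := by
        intro h3
        have h4 : |(i : ℤ) - j| < M := by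
          rw [abs_lt]
          constructor <;> omega
        have h5 := Int.eq_zero_of_abs_lt_dvd h3 h4
        omega
      have h3 := dist1_div_ge hM h2
      have h4 : (((i : ℤ) - j : ℤ) : ℝ) / M = (i : ℝ) / M - (j : ℝ) / M := by
        push_cast
        ring
      rw [h4] at h3
      refine le_trans ?_ h3
      apply one_div_le_one_div_of_le hM0
      linarith) (X := (M : ℝ)) hM0.le
    have h2 : 1 / (M : ℝ) * (4 * M + 4 * M * (1 + Real.log M)) = 8 + 4 * Real.log M := by
      field_simp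
      ring
    calc 1 / (M : ℝ) * ∑ i ∈ range M, bd M (dist1 ((i : ℝ) / M))
        ≤ 1 / (M : ℝ) * (4 * M + 4 * M * (1 + Real.log M)) :=
          mul_le_mul_of_nonneg_left h1 (by positivity)
      _ = 8 + 4 * Real.log M := h2
  · intro t c hc
    show (if c ≤ t then (1 : ℂ) else 0) = ∑ h ∈ range M,
      ((1 / (M : ℂ)) * ∑ j ∈ range (min (t + 1) M), e (-((h : ℝ) / M) * j)) * e ((h : ℝ) * c / M)
    have h1 : ∑ h ∈ range M,
      ((1 / (M : ℂ)) * ∑ j ∈ range (min (t + 1) M), e (-((h : ℝ) / M) * j)) * e ((h : ℝ) * c / M)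
      = ∑ j ∈ range (min (t + 1) M), (1 / (M : ℂ)) *
          ∑ h ∈ range M, e ((((c : ℤ) - j : ℤ) : ℝ) / M * h) := by
      have h2 : ∀ h ∈ range M,
          ((1 / (M : ℂ)) * ∑ j ∈ range (min (t + 1) M), e (-((h : ℝ) / M) * j))
            * e ((h : ℝ) * c / M)
          = ∑ j ∈ range (min (t + 1) M), (1 / (M : ℂ)) *
            e ((((c : ℤ) - j : ℤ) : ℝ) / M * h) := by
        intro h _
        rw [mul_assoc, Finset.sum_mul, Finset.mul_sum]
        apply Finset.sum_congr rfl
        intro j _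
        congr 1
        rw [← e_add]
        congr 1
        push_cast
        ring
      rw [Finset.sum_congr rfl h2, Finset.sum_comm]
      apply Finset.sum_congr rfl
      intro j _
      rw [Finset.mul_sum]
    rw [h1]
    have h3 : ∀ j ∈ range (min (t + 1) M), (1 / (M : ℂ)) *
          ∑ h ∈ range M, e ((((c : ℤ) - j : ℤ) : ℝ) / M * h) = if j = c then 1 else 0 := by
      intro j hj
      rw [mem_range] at hj
      split_ifs with h4
      · subst h4
        have h5 : ∀ h ∈ range M, e ((((j : ℤ) - j : ℤ) : ℝ) / M * h) = 1 := by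
          intro h _
          rw [sub_self, Int.cast_zero, zero_div, zero_mul, e_zero]
        rw [Finset.sum_congr rfl h5, Finset.sum_const, Finset.card_range, nsmul_eq_mul, mul_one]
        field_simp
      · have h5 : ¬ (M : ℤ) ∣ ((c : ℤ) - j) := by
          intro h6
          have h7 : |(c : ℤ) - j| < M := by
            rw [abs_lt]
            constructor <;> omega
          have h8 := Int.eq_zero_of_abs_lt_dvd h6 h7
          omega
        rw [orth hM _ h5, mul_zero]
    rw [Finset.sum_congr rfl h3, Finset.sum_ite_eq' (range (min (t + 1) M)) c (fun _ => (1 : ℂ))]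
    have h4 : c ∈ range (min (t + 1) M) ↔ c ≤ t := by
      rw [mem_range]
      omega
    by_cases h5 : c ≤ t
    · rw [if_pos h5, if_pos (h4.2 h5)]
    · rw [if_neg h5, if_neg (fun h => h5 (h4.1 h))]

end Pool.Agent.EWG.H53
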